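import Mathlib

set_option autoImplicit false

namespace Pool.Agent.Results.MP_aba9fe_co.Interpolation

open SimpleGraph

/-- A loopless multigraph: its underlying simple graph and, for each adjacent pair, the number
of parallel edges joining it. -/
structure MG (V : Type) where
  H : SimpleGraph V
  mult : Sym2 V → ℕ
  pos : ∀ e ∈ H.edgeSet, 0 < mult e

variable {V : Type}

/-- `F` arises from `G` by adding edges. -/
def Super (G F : MG V) : Prop := G.H ≤ F.H ∧ ∀ e ∈ G.H.edgeSet, G.mult e ≤ F.mult e

/-- A unique shortest path: no edge of it has a parallel edge, no path between its ends is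
shorter, and it is the only one of its length. -/
def IsUSP (G : MG V) {u v : V} (w : G.H.Walk u v) : Prop :=
  w.IsPath ∧ (∀ e ∈ w.edges, G.mult e = 1) ∧
    ∀ q : G.H.Walk u v, q.IsPath → w.length ≤ q.length ∧ (q.length = w.length → q = w)

/-- The parade number: the largest order (number of vertices) of a unique shortest path. -/
noncomputable def usp (G : MG V) : ℕ :=
  sSup {k | ∃ (u v : V) (w : G.H.Walk u v), IsUSP G w ∧ w.length + 1 = k}

/-- The spectator number. -/
noncomputable def sp [Fintype V] (G : MG V) : ℕ := Fintype.card V - usp G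

lemma step (G : MG V) {u x v : V} (h : G.H.Adj u x) (w : G.H.Walk x v)
    (hw : IsUSP G (Walk.cons h w)) : IsUSP G w := by
  classical
  have key : ∀ q : G.H.Walk x v, q.length ≤ w.length → q = w := by
    intro q hq
    have h1 := hw.2.2 (Walk.cons h q).bypass (Walk.bypass_isPath _)
    have h2 := Walk.length_bypass_le (Walk.cons h q)
    simp only [Walk.length_cons] at h1 h2
    have h3 := h1.2 (by omega)
    have h4 : (Walk.cons h q).bypass = Walk.cons h q :=
      Walk.bypass_eq_self_of_length_le _ (by simp only [Walk.length_cons]; omega)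
    rw [h4] at h3
    simpa using h3
  refine ⟨hw.1.of_cons, fun e he => hw.2.1 e (by simp [he]), fun q _ => ⟨?_, fun e => key q e.le⟩⟩
  by_contra hlt
  have := key q (not_le.1 hlt).le
  rw [this] at hlt
  exact hlt le_rfl

lemma down (G : MG V) (j : ℕ) : ∀ {u v : V} (w : G.H.Walk u v), IsUSP G w → j ≤ w.length →
    ∃ (x : V) (w' : G.H.Walk x v), IsUSP G w' ∧ w'.length = j := by
  intro u v w
  induction w with
  | nil => exact fun hw hj => ⟨_, Walk.nil, hw, by simpa [eq_comm] using hj⟩
  | cons h w ih =>
    intro hw hj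
    by_cases e : j ≤ w.length
    · exact ih (step G h w hw) e
    · exact ⟨_, Walk.cons h w, hw, by simp only [Walk.length_cons] at hj ⊢; omega⟩

lemma bdd [Fintype V] (G : MG V) :
    ∀ k ∈ {k | ∃ (u v : V) (w : G.H.Walk u v), IsUSP G w ∧ w.length + 1 = k},
      k ≤ Fintype.card V := by
  rintro k ⟨u, v, w, hw, rfl⟩
  exact hw.1.length_lt

lemma ne [Nonempty V] (G : MG V) :
    1 ∈ {k | ∃ (u v : V) (w : G.H.Walk u v), IsUSP G w ∧ w.length + 1 = k} := by
  obtain ⟨u⟩ := ‹Nonempty V›
  refine ⟨u, u, Walk.nil, ⟨Walk.IsPath.nil, by simp, fun q _ => ⟨by simp, fun e => ?_⟩⟩, rfl⟩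
  cases q with
  | nil => rfl
  | cons h q => simp at e

theorem result (V : Type) [Fintype V] [Nonempty V] (G G' : MG V) (hG : Super G G') (i : ℕ)
    (h1 : sp G' ≤ i) (h2 : i ≤ sp G) : ∃ F : MG V, Super G F ∧ sp F = i := by
  classical
  have a1 : 1 ≤ usp G := le_csSup ⟨_, bdd G⟩ (ne G)
  have a0 : 0 < Fintype.card V := Fintype.card_pos
  obtain ⟨u, v, w, hw, hl⟩ := Nat.sSup_mem ⟨1, ne G'⟩ ⟨_, bdd G'⟩
  change w.length + 1 = usp G' at hl
  unfold sp at h1 h2
  obtain ⟨x, p, hp, hpl⟩ := down G' (Fintype.card V - i - 1) w hw (by omega)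
  let F : MG V := ⟨G'.H, fun e => if e ∈ p.edges then G'.mult e else 2 * G'.mult e,
    fun e he => by have := G'.pos e he; split_ifs <;> omega⟩
  refine ⟨F, ⟨hG.1, fun e he => ?_⟩, ?_⟩
  · have := hG.2 e he
    change G.mult e ≤ if e ∈ p.edges then G'.mult e else 2 * G'.mult e
    split_ifs <;> omega
  · have : usp F = Fintype.card V - i := by
      apply IsGreatest.csSup_eq
      constructor
      · refine ⟨x, v, p, ⟨hp.1, fun e he => ?_, hp.2.2⟩, by omega⟩
        change (if e ∈ p.edges then G'.mult e else 2 * G'.mult e) = 1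
        rw [if_pos he]
        exact hp.2.1 e he
      · rintro k ⟨a, b, q, hq, rfl⟩
        have hsub : q.edges ⊆ p.edges := by
          intro e he
          have h3 := hq.2.1 e he
          change (if e ∈ p.edges then G'.mult e else 2 * G'.mult e) = 1 at h3
          by_contra hne
          rw [if_neg hne] at h3
          omega
        have h4 := (List.subperm_of_subset hq.1.isTrail.edges_nodup hsub).length_le
        rw [Walk.length_edges, Walk.length_edges] at h4
        omega
    unfold sp
    omega

end Pool.Agent.Results.MP_aba9fe_co.Interpolation
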